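import Pool.Agent.P8H16.RF.Stm

/-!
# Package FIN of project RF: the deviation for the exponential sums
-/

set_option autoImplicit false

namespace Pool.Agent.P8H78.RF

open Finset MeasureTheory
open Pool.Agent.P8H16.RF

theorem e_eq (y : ℝ) : e y = (Real.cos y : ℂ) + (Real.sin y : ℂ) * Complex.I := by
  unfold e
  rw [Complex.exp_mul_I, Complex.ofReal_cos, Complex.ofReal_sin]

theorem F_re (M : ℕ) (a : ℕ → ℂ) (x : ℝ) : (F M a x).re =
    ∑ t ∈ range M, ((a t).re * Real.cos ((t : ℝ) * x) - (a t).im * Real.sin ((t : ℝ) * x)) := by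
  unfold F
  rw [Complex.re_sum]
  refine Finset.sum_congr rfl fun t _ => ?_
  rw [e_eq, Complex.mul_re, Complex.add_re, Complex.add_im, Complex.re_ofReal_mul,
    Complex.im_ofReal_mul, Complex.I_re, Complex.I_im, Complex.ofReal_re, Complex.ofReal_im]
  ring

theorem F_im (M : ℕ) (a : ℕ → ℂ) (x : ℝ) : (F M a x).im =
    ∑ t ∈ range M, ((a t).im * Real.cos ((t : ℝ) * x) + (a t).re * Real.sin ((t : ℝ) * x)) := by
  unfold F
  rw [Complex.im_sum]
  refine Finset.sum_congr rfl fun t _ => ?_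
  rw [e_eq, Complex.mul_im, Complex.add_re, Complex.add_im, Complex.re_ofReal_mul,
    Complex.im_ofReal_mul, Complex.I_re, Complex.I_im, Complex.ofReal_re, Complex.ofReal_im]
  ring

theorem fr_cont (κ : ℝ) {n : ℕ} (hn : 1 ≤ n) : Continuous fun ω : unitInterval => fr κ n ω := by
  unfold fr
  have hn' : (0 : ℝ) < n := by exact_mod_cast hn
  refine Continuous.log (by fun_prop) fun ω => ?_
  have h1 : 0 ≤ (ω : ℝ) * (n : ℝ) ^ (-κ) := mul_nonneg ω.2.1 (Real.rpow_nonneg hn'.le _)
  linarith

theorem e_cont : Continuous e := by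
  unfold e
  fun_prop

theorem F_cont (M : ℕ) (a : ℕ → ℂ) : Continuous (F M a) := by
  unfold F
  refine continuous_finsetSum _ fun t _ => continuous_const.mul (e_cont.comp (by fun_prop))

theorem int_unit (h : ℝ → ℝ) :
    ∫ ω : unitInterval, h (ω : ℝ) = ∫ r in (0 : ℝ)..1, h r := by
  rw [intervalIntegral.integral_of_le zero_le_one, ← integral_Icc_eq_integral_Ioc]
  exact unitInterval.measurePreserving_coe.integral_comp
    (MeasurableEmbedding.subtype_coe measurableSet_Icc) h

/-- the trigonometric functions -/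
noncomputable def gam (κ : ℝ) (N M : ℕ) (j : Fin M × Bool) (n : ↥(Icc N (2 * N)))
    (ω : unitInterval) : ℝ :=
  if j.2 then Real.cos (((j.1 : ℕ) : ℝ) * fr κ n ω) else Real.sin (((j.1 : ℕ) : ℝ) * fr κ n ω)

theorem gam_cont (κ : ℝ) {N M : ℕ} (hN : 1 ≤ N) (j : Fin M × Bool) (n : ↥(Icc N (2 * N))) :
    Continuous (gam κ N M j n) := by
  have hn : 1 ≤ (n : ℕ) := hN.trans (mem_Icc.1 n.2).1
  have h := fr_cont κ hn
  unfold gam
  split_ifs
  · exact Real.continuous_cos.comp (continuous_const.mul h)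
  · exact Real.continuous_sin.comp (continuous_const.mul h)

theorem gam_le (κ : ℝ) (N M : ℕ) (j : Fin M × Bool) (n : ↥(Icc N (2 * N))) (ω : unitInterval) :
    |gam κ N M j n ω| ≤ 1 := by
  unfold gam
  split_ifs
  · exact Real.abs_cos_le_one _
  · exact Real.abs_sin_le_one _

/-- one real part of the sum -/
theorem part {κ : ℝ} {N M : ℕ} {u A : ℝ} (hA : 0 < A) {p q : ℕ → ℝ}
    (hpq : ∑ t ∈ range M, (|p t| + |q t|) ≤ 2 * A) {θ : ↥(Icc N (2 * N)) → unitInterval}
    (hθ : θ ∉ Bad (gam κ N M) u) :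
    ∑ n : ↥(Icc N (2 * N)), |∑ t ∈ range M, (p t * Real.cos ((t : ℝ) * fr κ n (θ n)) +
      q t * Real.sin ((t : ℝ) * fr κ n (θ n)))| ≤
    ∑ n : ↥(Icc N (2 * N)), (∫ ω : unitInterval, |∑ t ∈ range M,
      (p t * Real.cos ((t : ℝ) * fr κ n ω) + q t * Real.sin ((t : ℝ) * fr κ n ω))|) +
      2 * A * u := by
  have hcomb : ∀ (n : ↥(Icc N (2 * N))) (ω : unitInterval),
      ∑ j : Fin M × Bool, (if j.2 then p j.1 / (2 * A) else q j.1 / (2 * A)) * gam κ N M j n ω =
      (2 * A)⁻¹ * ∑ t ∈ range M, (p t * Real.cos ((t : ℝ) * fr κ n ω) +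
        q t * Real.sin ((t : ℝ) * fr κ n ω)) := by
    intro n ω
    rw [Fintype.sum_prod_type, ← Fin.sum_univ_eq_sum_range
      (fun t => p t * Real.cos ((t : ℝ) * fr κ n ω) + q t * Real.sin ((t : ℝ) * fr κ n ω)),
      Finset.mul_sum]
    refine Finset.sum_congr rfl fun t _ => ?_
    rw [Fintype.sum_bool]
    unfold gam
    simp only [if_true, Bool.false_eq_true, if_false]
    field_simp
  have h1 : ¬ (u < ∑ n, |∑ j : Fin M × Bool, (if j.2 then p j.1 / (2 * A) else q j.1 / (2 * A)) *
      gam κ N M j n (θ n)| - ∑ n, ∫ ω, |∑ j : Fin M × Bool,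
      (if j.2 then p j.1 / (2 * A) else q j.1 / (2 * A)) * gam κ N M j n ω|) := by
    intro hc
    refine hθ ⟨fun j => if j.2 then p j.1 / (2 * A) else q j.1 / (2 * A), ?_, hc⟩
    rw [Fintype.sum_prod_type]
    have h2 : ∀ t : Fin M, ∑ b : Bool, |if b then p t / (2 * A) else q t / (2 * A)| =
        (2 * A)⁻¹ * (|p t| + |q t|) := by
      intro t
      rw [Fintype.sum_bool]
      simp only [if_true, Bool.false_eq_true, if_false]
      rw [abs_div, abs_div, abs_of_pos (by positivity : (0 : ℝ) < 2 * A)]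
      field_simp
    rw [Finset.sum_congr rfl fun t _ => h2 t, ← Finset.mul_sum,
      Fin.sum_univ_eq_sum_range (fun t => |p t| + |q t|), inv_mul_le_iff₀ (by positivity)]
    linarith
  simp only [hcomb, abs_mul, abs_inv, abs_of_pos (by positivity : (0 : ℝ) < 2 * A)] at h1
  rw [← Finset.mul_sum] at h1
  have h3 : ∀ n : ↥(Icc N (2 * N)), (∫ ω : unitInterval, (2 * A)⁻¹ * |∑ t ∈ range M,
      (p t * Real.cos ((t : ℝ) * fr κ n ω) + q t * Real.sin ((t : ℝ) * fr κ n ω))|) =
      (2 * A)⁻¹ * ∫ ω : unitInterval, |∑ t ∈ range M,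
      (p t * Real.cos ((t : ℝ) * fr κ n ω) + q t * Real.sin ((t : ℝ) * fr κ n ω))| := fun n =>
    integral_const_mul _ _
  rw [Finset.sum_congr rfl fun n _ => h3 n, ← Finset.mul_sum, ← mul_sub, not_lt,
    inv_mul_le_iff₀ (by positivity)] at h1
  linarith

theorem fin (h₁ : S_SYM) (h₂ : S_SWP) : S_FIN := by
  intro κ N M u hN hu hu2
  have hcard : Fintype.card ↥(Icc N (2 * N)) = N + 1 := by
    rw [Fintype.card_coe, Nat.card_Icc]
    omega
  have hcardJ : Fintype.card (Fin M × Bool) = M * 2 := by simp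
  set R : (ℕ → unitInterval) → (↥(Icc N (2 * N)) → unitInterval) :=
    (Icc N (2 * N)).restrict with hR
  have hsub : {θ : ℕ → unitInterval | ∃ a : ℕ → ℂ, 4 * u * n1 M a +
      2 * ∑ n ∈ Icc N (2 * N), (∫ r in (0 : ℝ)..1, ‖F M a (fr κ n r)‖) <
        ∑ n ∈ Icc N (2 * N), ‖F M a (fr κ n (θ n))‖} ⊆ R ⁻¹' Bad (gam κ N M) u := by
    rintro θ ⟨a, ha⟩
    by_contra hθ
    rw [Set.mem_preimage] at hθ
    have hn1 : 0 ≤ n1 M a := Finset.sum_nonneg fun t _ => norm_nonneg _
    rcases hn1.eq_or_lt with hA | hA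
    · -- all coefficients vanish
      have h0 : ∀ t ∈ range M, a t = 0 := by
        intro t ht
        have := (Finset.sum_eq_zero_iff_of_nonneg fun t _ => norm_nonneg (a t)).1 hA.symm t ht
        exact norm_eq_zero.1 this
      have hF0 : ∀ x, F M a x = 0 := by
        intro x
        unfold F
        exact Finset.sum_eq_zero fun t ht => by rw [h0 t ht, zero_mul]
      simp only [hF0, norm_zero, Finset.sum_const_zero, intervalIntegral.integral_zero, mul_zero,
        add_zero, ← hA] at ha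
      exact lt_irrefl _ ha
    · have hre := part (κ := κ) (u := u) hA (p := fun t => (a t).re) (q := fun t => -(a t).im)
        (M := M) (N := N) (θ := R θ) (by
          unfold n1
          rw [Finset.mul_sum]
          refine Finset.sum_le_sum fun t _ => ?_
          have h1 := Complex.abs_re_le_norm (a t)
          have h2 := Complex.abs_im_le_norm (a t)
          rw [abs_neg]
          linarith) hθ
      have him := part (κ := κ) (u := u) hA (p := fun t => (a t).im) (q := fun t => (a t).re)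
        (M := M) (N := N) (θ := R θ) (by
          unfold n1
          rw [Finset.mul_sum]
          refine Finset.sum_le_sum fun t _ => ?_
          have h1 := Complex.abs_re_le_norm (a t)
          have h2 := Complex.abs_im_le_norm (a t)
          linarith) hθ
      have ere : ∀ x : ℝ, ∑ t ∈ range M, ((a t).re * Real.cos ((t : ℝ) * x) +
          -(a t).im * Real.sin ((t : ℝ) * x)) = (F M a x).re := by
        intro x
        rw [F_re]
        exact Finset.sum_congr rfl fun t _ => by ring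
      have eim : ∀ x : ℝ, ∑ t ∈ range M, ((a t).im * Real.cos ((t : ℝ) * x) +
          (a t).re * Real.sin ((t : ℝ) * x)) = (F M a x).im := fun x => (F_im M a x).symm
      simp only [ere] at hre
      simp only [eim] at him
      have hint : ∀ n : ↥(Icc N (2 * N)), ∫ r in (0 : ℝ)..1, ‖F M a (fr κ n r)‖ =
          ∫ ω : unitInterval, ‖F M a (fr κ n ω)‖ := fun n =>
        (int_unit fun r => ‖F M a (fr κ n r)‖).symm
      have hcF : ∀ n : ↥(Icc N (2 * N)), Continuous fun ω : unitInterval => F M a (fr κ n ω) :=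
        fun n => (F_cont M a).comp (fr_cont κ (hN.trans (mem_Icc.1 n.2).1))
      have hI : ∀ {f : unitInterval → ℝ}, Continuous f → Integrable f := fun hf =>
        hf.integrable_of_hasCompactSupport (HasCompactSupport.of_compactSpace _)
      have hle1 : ∀ n : ↥(Icc N (2 * N)), (∫ ω : unitInterval, |(F M a (fr κ n ω)).re|) ≤
          ∫ ω : unitInterval, ‖F M a (fr κ n ω)‖ := fun n =>
        integral_mono (hI ((Complex.continuous_re.comp (hcF n)).abs)) (hI (hcF n).norm)
          fun ω => Complex.abs_re_le_norm _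
      have hle2 : ∀ n : ↥(Icc N (2 * N)), (∫ ω : unitInterval, |(F M a (fr κ n ω)).im|) ≤
          ∫ ω : unitInterval, ‖F M a (fr κ n ω)‖ := fun n =>
        integral_mono (hI ((Complex.continuous_im.comp (hcF n)).abs)) (hI (hcF n).norm)
          fun ω => Complex.abs_im_le_norm _
      have hs1 := Finset.sum_le_sum fun n (_ : n ∈ (univ : Finset ↥(Icc N (2 * N)))) => hle1 n
      have hs2 := Finset.sum_le_sum fun n (_ : n ∈ (univ : Finset ↥(Icc N (2 * N)))) => hle2 n
      have hs3 : ∑ n : ↥(Icc N (2 * N)), ‖F M a (fr κ n (θ n))‖ ≤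
          ∑ n : ↥(Icc N (2 * N)), |(F M a (fr κ n (R θ n))).re| +
          ∑ n : ↥(Icc N (2 * N)), |(F M a (fr κ n (R θ n))).im| := by
        rw [← Finset.sum_add_distrib]
        exact Finset.sum_le_sum fun n _ => Complex.norm_le_abs_re_add_abs_im _
      have e1 : ∑ n ∈ Icc N (2 * N), ‖F M a (fr κ n (θ n))‖ =
          ∑ n : ↥(Icc N (2 * N)), ‖F M a (fr κ n (θ n))‖ :=
        (Finset.sum_coe_sort (Icc N (2 * N)) fun n => ‖F M a (fr κ n (θ n))‖).symm
      have e2 : ∑ n ∈ Icc N (2 * N), (∫ r in (0 : ℝ)..1, ‖F M a (fr κ n r)‖) =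
          ∑ n : ↥(Icc N (2 * N)), ∫ ω : unitInterval, ‖F M a (fr κ n ω)‖ := by
        rw [← Finset.sum_coe_sort (Icc N (2 * N)) fun n => ∫ r in (0 : ℝ)..1, ‖F M a (fr κ n r)‖]
        exact Finset.sum_congr rfl fun n _ => hint n
      rw [e1, e2] at ha
      linarith
  have hRm : Measurable R := Finset.measurable_restrict _
  calc Pr _ ≤ Pr (R ⁻¹' Bad (gam κ N M) u) := measure_mono hsub
    _ ≤ (Pr.map R) (Bad (gam κ N M) u) := Measure.le_map_apply hRm.aemeasurable _
    _ = volume (Bad (gam κ N M) u) := by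
        unfold Pr
        rw [hR, Measure.infinitePi_map_restrict]
        rfl
    _ ≤ 2 * ((volume : Measure (↥(Icc N (2 * N)) → unitInterval)).prod volume)
        (Bad2 (gam κ N M) (u / 2)) := by
        refine h₁ _ _ (gam κ N M) (gam_cont κ hN) (gam_le κ N M) u hu ?_
        rw [hcard]
        push_cast
        exact hu2
    _ ≤ 2 * ENNReal.ofReal (4 * (Fintype.card (Fin M × Bool) : ℝ) *
        Real.exp (-((u / 2) ^ 2 / (8 * (Fintype.card ↥(Icc N (2 * N)) : ℝ))))) := by
        gcongr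
        exact h₂ _ _ (gam κ N M) (gam_cont κ hN) (gam_le κ N M) (u / 2) (by positivity)
    _ = ENNReal.ofReal (16 * M * Real.exp (-(u ^ 2 / (32 * ((N : ℝ) + 1))))) := by
        rw [hcard, hcardJ, show (2 : ENNReal) = ENNReal.ofReal 2 by simp,
          ← ENNReal.ofReal_mul (by norm_num)]
        congr 1
        push_cast
        have : (u / 2) ^ 2 / (8 * ((N : ℝ) + 1)) = u ^ 2 / (32 * ((N : ℝ) + 1)) := by
          field_simp
          ring
        rw [this]
        ring

end Pool.Agent.P8H78.RF
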